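import Pool.Agent.H97.NR.Stmts

/-!
# Project NR, module KRE
-/

set_option autoImplicit false

namespace Pool.NR

theorem kre : KREStmt := by
  intro p _ k a ha
  classical
  have hne : ((Finset.univ : Finset (ZMod p)).filter (fun t => t ≠ 0)).Nonempty :=
    ⟨1, by simp⟩
  obtain ⟨t, ht, hmin⟩ := Finset.exists_min_image _ (fun t => (a * t ^ k).val) hne
  have ht0 : t ≠ 0 := (Finset.mem_filter.mp ht).2
  refine ⟨a * t ^ k, t⁻¹, ⟨mul_ne_zero ha (pow_ne_zero _ ht0), ?_⟩, inv_ne_zero ht0, ?_⟩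
  · intro u hu
    have h := hmin (t * u) (by simp [ht0, hu])
    rw [mul_pow, ← mul_assoc] at h
    exact h
  · rw [mul_assoc, ← mul_pow, mul_inv_cancel₀ ht0, one_pow, mul_one]

end Pool.NR
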