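import Pool.Agent.H97.NR.Stmts

/-!
# Project NR, module KRU
-/

set_option autoImplicit false

namespace Pool.NR

theorem kru : KRUStmt := by
  intro p _ k s s' t hs hs' ht h
  apply ZMod.val_injective
  apply le_antisymm
  · rw [h]
    exact hs.2 t ht
  · have h1 := hs'.2 t⁻¹ (inv_ne_zero ht)
    have h2 : s' * t⁻¹ ^ k = s := by
      rw [h, mul_assoc, ← mul_pow, mul_inv_cancel₀ ht, one_pow, mul_one]
    rwa [h2] at h1

end Pool.NR
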