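import Pool.Agent.H97.NR.Stmts
import Pool.Agent.H97.NR.StmtsC

/-!
# Project NR, module N2M: the number of tables of type `NF2aM`
-/

set_option autoImplicit false

namespace Pool.NR

theorem n2m : N2MStmt := by
  intro p _
  have h : {B : Fin 3 → Fin 3 → ZMod p | NF2aM B} =
      (fun δ : ZMod p => (![![1, 1, 0], ![0, δ, 0], ![0, 0, 0]] : Fin 3 → Fin 3 → ZMod p)) ''
        Set.univ := by
    ext B
    simp only [Set.mem_image, Set.mem_univ, true_and]
    constructor
    · rintro ⟨δ⟩
      exact ⟨δ, rfl⟩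
    · rintro ⟨δ, rfl⟩
      exact NF2aM.m δ
  have hc : cnt (NF2aM (p := p)) = {B : Fin 3 → Fin 3 → ZMod p | NF2aM B}.ncard := by
    rw [← Nat.card_coe_set_eq]; rfl
  rw [hc, h, Set.ncard_image_of_injective, Set.ncard_univ, Nat.card_eq_fintype_card, ZMod.card]
  intro a b hab
  have := congrFun (congrFun hab 1) 1
  simpa using this

end Pool.NR
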