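import Pool.Agent.H97.NR.Stmts
import Pool.Agent.H97.NR.StmtsC

/-!
# Project NR, module N2S: the number of tables of type `NF2aS`
-/

set_option autoImplicit false

namespace Pool.NR

theorem n2s (h1 : NKRStmt) (_h2 : NPTStmt) : N2SStmt := by
  intro p hp
  have hK := h1 p 2 (by norm_num)
  have hg : Nat.gcd 2 (p - 1) = if p = 2 then 1 else 2 := by
    split_ifs with h
    · subst h; rfl
    · have hodd : Odd p := hp.out.odd_of_ne_two h
      obtain ⟨k, hk⟩ := hodd
      have : p - 1 = 2 * k := by omega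
      rw [this, Nat.gcd_mul_right_right]
  have h : {B : Fin 3 → Fin 3 → ZMod p | NF2aS B} =
      insert ![![1, 0, 0], ![0, 0, 0], ![0, 0, 0]] (insert ![![1, 0, 0], ![0, 1, 0], ![0, 0, 1]]
      ((fun s : ZMod p => (![![1, 0, 0], ![0, s, 0], ![0, 0, 0]] : Fin 3 → Fin 3 → ZMod p)) ''
        {s | KRep p 2 s})) := by
    ext B
    constructor
    · intro hB
      rcases hB with _ | ⟨s, hs⟩ | _
      · exact Or.inl rfl
      · exact Or.inr (Or.inr ⟨s, hs, rfl⟩)
      · exact Or.inr (Or.inl rfl)
    · rintro (h | h | ⟨s, hs, rfl⟩)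
      · rw [h]; exact NF2aS.r1
      · rw [h]; exact NF2aS.r3
      · exact NF2aS.r2 s hs
  have hc : ∀ {α : Type} (P : α → Prop), cnt P = {x | P x}.ncard := by
    intro α P
    rw [← Nat.card_coe_set_eq]; rfl
  rw [hc] at hK
  rw [hc, h, Set.ncard_insert_of_notMem, Set.ncard_insert_of_notMem, Set.ncard_image_of_injective,
    hK, hg]
  · split_ifs <;> rfl
  · intro a b hab
    have := congrFun (congrFun hab 1) 1
    simpa using this
  · rintro ⟨s, -, hs⟩
    have := congrFun (congrFun hs 2) 2
    simp at this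
  · rintro (h | ⟨s, hs, h⟩)
    · have := congrFun (congrFun h 1) 1
      simp at this
    · have := congrFun (congrFun h 1) 1
      simp at this
      exact hs.1 this

end Pool.NR
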