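import Pool.Agent.H97.NR.Stmts
import Pool.Agent.H97.NR.StmtsC

/-!
# Project NR, module NKR: number of classes modulo `k`-th powers
-/

set_option autoImplicit false

namespace Pool.NR

theorem nkr (h1 : KREStmt) (h2 : KRUStmt) : NKRStmt := by
  intro p _ k hk
  have hidx := IsCyclic.index_powMonoidHom_range (G := (ZMod p)ˣ) k
  rw [Nat.card_eq_fintype_card, ZMod.card_units p, Nat.gcd_comm] at hidx
  rw [← hidx, Subgroup.index]
  refine Nat.card_eq_of_bijective (fun s : {s : ZMod p // KRep p k s} =>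
    (QuotientGroup.mk (Units.mk0 s.1 s.2.1) :
      (ZMod p)ˣ ⧸ (powMonoidHom k : (ZMod p)ˣ →* (ZMod p)ˣ).range)) ⟨?_, ?_⟩
  · rintro ⟨s, hs⟩ ⟨s', hs'⟩ h
    rw [QuotientGroup.eq] at h
    obtain ⟨u, hu⟩ := h
    have h3 : s' = s * (u : ZMod p) ^ k := by
      have h4 := congrArg (fun x : (ZMod p)ˣ => (x : ZMod p)) hu
      simp only [powMonoidHom_apply, Units.val_pow_eq_pow_val, Units.val_mul, Units.val_inv_eq_inv_val,
        Units.val_mk0] at h4
      rw [h4, ← mul_assoc, mul_inv_cancel₀ hs.1, one_mul]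
    exact Subtype.ext (h2 p k s s' u hs hs' u.ne_zero h3)
  · intro x
    induction x using QuotientGroup.induction_on with
    | H u =>
      obtain ⟨s, t, hs, ht, hst⟩ := h1 p k (u : ZMod p) u.ne_zero
      refine ⟨⟨s, hs⟩, ?_⟩
      simp only
      rw [QuotientGroup.eq]
      refine ⟨Units.mk0 t ht, ?_⟩
      ext
      simp only [powMonoidHom_apply, Units.val_pow_eq_pow_val, Units.val_mul,
        Units.val_inv_eq_inv_val, Units.val_mk0]
      rw [hst, ← mul_assoc, inv_mul_cancel₀ hs.1, one_mul]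

end Pool.NR
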