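import Pool.Agent.H97.NR.Stmts
import Pool.Agent.H97.NR.StmtsC

/-!
# Project NR, module NNR: number of representatives of the values of `b ^ 2 - s a ^ 2`
-/

set_option autoImplicit false

namespace Pool.NR

open Polynomial in
private theorem NNR_surj (p : ℕ) [Fact p.Prime] (hp : p ≠ 2) (s : ZMod p) (hs : s ≠ 0)
    (c : ZMod p) : ∃ a b : ZMod p, b ^ 2 - s * a ^ 2 = c := by
  have hodd : Fintype.card (ZMod p) % 2 = 1 := by
    rw [ZMod.card]
    exact (Fact.out : p.Prime).eq_two_or_odd.resolve_left hp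
  have hf : (X ^ 2 - C c : (ZMod p)[X]).degree = 2 := by
    exact degree_X_pow_sub_C (by norm_num) c
  have hg : (C (-s) * X ^ 2 : (ZMod p)[X]).degree = 2 := by
    rw [degree_C_mul_X_pow 2 (neg_ne_zero.mpr hs)]; rfl
  obtain ⟨b, a, h⟩ := FiniteField.exists_root_sum_quadratic hf hg hodd
  refine ⟨a, b, ?_⟩
  simp only [eval_sub, eval_pow, eval_X, eval_C, eval_mul] at h
  linear_combination h

theorem nnr (h1 : NREStmt) (h2 : NRUStmt) : NNRStmt := by
  intro p _ s hp hs _
  have hb : Function.Bijective (fun x : {x : ZMod p × ZMod p // NRep p s x.1 x.2} =>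
      x.1.2 ^ 2 - s * x.1.1 ^ 2) := by
    constructor
    · rintro ⟨⟨a, b⟩, h⟩ ⟨⟨a', b'⟩, h'⟩ hab
      have := h2 p s a b a' b' h h' hab.symm
      exact Subtype.ext (Prod.ext this.1 this.2)
    · intro c
      obtain ⟨a, b, hab⟩ := NNR_surj p hp s hs.1 c
      obtain ⟨a', b', hr, he⟩ := h1 p s a b
      exact ⟨⟨(a', b'), hr⟩, he.trans hab⟩
  rw [cnt, Nat.card_eq_of_bijective _ hb, Nat.card_eq_fintype_card, ZMod.card]

end Pool.NR
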