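import Pool.Agent.H97.NR.Stmts
import Pool.Agent.H97.NR.StmtsC

/-!
# Project NR, module NPT: elementary counts
-/

set_option autoImplicit false

namespace Pool.NR

private theorem NPT_cnt {α : Type*} (P : α → Prop) : cnt P = {x | P x}.ncard := by
  rw [← Nat.card_coe_set_eq]; rfl

private theorem NPT_univ (p : ℕ) [Fact p.Prime] : (Set.univ : Set (ZMod p)).ncard = p := by
  rw [Set.ncard_univ, Nat.card_eq_fintype_card, ZMod.card]

private theorem NPT_compl (p : ℕ) [Fact p.Prime] (s : Set (ZMod p)) : sᶜ.ncard + s.ncard = p := by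
  rw [add_comm, Set.ncard_add_ncard_compl, ← Set.ncard_univ, NPT_univ]

private theorem NPT_pt (p : ℕ) [Fact p.Prime] :
    {x : ZMod p × ZMod p | Pt x.1 x.2}.ncard = p + 1 := by
  have h : {x : ZMod p × ZMod p | Pt x.1 x.2} =
      insert (0, 1) ((fun c : ZMod p => ((1 : ZMod p), c)) '' Set.univ) := by
    ext ⟨b, c⟩
    simp only [Set.mem_ofPred_eq, Pt, Set.mem_insert_iff, Prod.mk.injEq, Set.mem_image,
      Set.mem_univ, true_and]
    constructor
    · rintro (h | h)
      · exact Or.inr ⟨c, h.symm, rfl⟩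
      · exact Or.inl h
    · rintro (h | ⟨c', h, -⟩)
      · exact Or.inr h
      · exact Or.inl h.symm
  rw [h, Set.ncard_insert_of_notMem, Set.ncard_image_of_injective, NPT_univ]
  · intro a b hab
    exact (Prod.mk.inj hab).2
  · rintro ⟨c, -, hc⟩
    exact one_ne_zero (Prod.mk.inj hc).1

private theorem NPT_one_rep (p : ℕ) [Fact p.Prime] (k : ℕ) : KRep p k (1 : ZMod p) := by
  refine ⟨one_ne_zero, fun t ht => ?_⟩
  rw [one_mul, ZMod.val_one]
  have : (t ^ k).val ≠ 0 := by
    rw [Ne, ZMod.val_eq_zero]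
    exact pow_ne_zero _ ht
  omega

private theorem NPT_two_ne (p : ℕ) [hp : Fact p.Prime] (h : p ≠ 2) : (2 : ZMod p) ≠ 0 := by
  intro h2
  have : ((2 : ℕ) : ZMod p) = 0 := by exact_mod_cast h2
  rw [ZMod.natCast_eq_zero_iff] at this
  exact h ((Nat.prime_dvd_prime_iff_eq hp.out Nat.prime_two).mp this)

private theorem NPT_three_ne (p : ℕ) [hp : Fact p.Prime] (h : p ≠ 3) : (3 : ZMod p) ≠ 0 := by
  intro h2
  have : ((3 : ℕ) : ZMod p) = 0 := by exact_mod_cast h2
  rw [ZMod.natCast_eq_zero_iff] at this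
  exact h ((Nat.prime_dvd_prime_iff_eq hp.out Nat.prime_three).mp this)

theorem npt (hK : KR2Stmt) : NPTStmt := by
  intro p _
  have hcomp1 : ∀ a : ZMod p, cnt (fun x : ZMod p => x ≠ a) + 1 = p := by
    intro a
    have := NPT_compl p {a}
    rw [Set.ncard_singleton] at this
    rw [NPT_cnt]
    exact this
  refine ⟨?_, ?_, ?_, ?_, ?_, ?_, ?_, hcomp1, ?_⟩
  · rw [NPT_cnt]
    exact Set.ncard_pair zero_ne_one
  · rw [NPT_cnt, NPT_pt]
  · rw [NPT_cnt]
    have h : {x : ZMod p × ZMod p | Pt0 x.1 x.2} = insert (0, 0) {x | Pt x.1 x.2} := by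
      ext ⟨b, c⟩
      simp only [Set.mem_ofPred_eq, Pt0, Set.mem_insert_iff, Prod.mk.injEq]
    rw [h, Set.ncard_insert_of_notMem, NPT_pt]
    rintro (h | h)
    · exact zero_ne_one h
    · exact zero_ne_one h.2
  · rw [NPT_cnt]
    have h : {x : ZMod p × ZMod p | Pt x.1 x.2 ∧ x.1 + x.2 ≠ 0} =
        insert (0, 1) ((fun c : ZMod p => ((1 : ZMod p), c)) '' {c | c ≠ -1}) := by
      ext ⟨b, c⟩
      simp only [Set.mem_ofPred_eq, Pt, Set.mem_insert_iff, Prod.mk.injEq, Set.mem_image]
      constructor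
      · rintro ⟨h | h, h'⟩
        · refine Or.inr ⟨c, ?_, h.symm, rfl⟩
          rintro rfl
          apply h'
          rw [h]; ring
        · exact Or.inl h
      · rintro (h | ⟨c', h', h, rfl⟩)
        · refine ⟨Or.inr h, ?_⟩
          rw [h.1, h.2, zero_add]
          exact one_ne_zero
        · refine ⟨Or.inl h.symm, ?_⟩
          rw [← h]
          intro h3
          apply h'
          linear_combination h3
    have h4 := hcomp1 (-1)
    rw [NPT_cnt] at h4
    rw [h, Set.ncard_insert_of_notMem, Set.ncard_image_of_injective]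
    · exact h4
    · intro a b hab
      exact (Prod.mk.inj hab).2
    · rintro ⟨c, -, hc⟩
      exact one_ne_zero (Prod.mk.inj hc).1
  · intro hp
    have h3 := NPT_three_ne p hp
    rw [NPT_cnt]
    have h : {x : (ZMod p × ZMod p) × ZMod p | Pt x.1.1 x.1.2 ∧ 3 * x.2 = x.1.1 + x.1.2} =
        (fun y : ZMod p × ZMod p => (y, 3⁻¹ * (y.1 + y.2))) '' {y | Pt y.1 y.2} := by
      ext ⟨⟨b, c⟩, x⟩
      simp only [Set.mem_ofPred_eq, Set.mem_image, Prod.mk.injEq, Prod.exists]
      constructor
      · rintro ⟨h, h'⟩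
        refine ⟨b, c, h, ⟨rfl, rfl⟩, ?_⟩
        rw [← h', ← mul_assoc, inv_mul_cancel₀ h3, one_mul]
      · rintro ⟨b', c', h, ⟨rfl, rfl⟩, rfl⟩
        refine ⟨h, ?_⟩
        rw [← mul_assoc, mul_inv_cancel₀ h3, one_mul]
    rw [h, Set.ncard_image_of_injective, NPT_pt]
    intro a b hab
    exact (Prod.mk.inj hab).1
  · intro hp
    have h3 : (3 : ZMod p) = 0 := by
      have : ((3 : ℕ) : ZMod p) = 0 := by
        rw [ZMod.natCast_eq_zero_iff, hp]
      exact_mod_cast this
    rw [NPT_cnt]
    have h : {x : (ZMod p × ZMod p) × ZMod p | Pt x.1.1 x.1.2 ∧ 3 * x.2 = x.1.1 + x.1.2} =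
        (fun x : ZMod p => (((1 : ZMod p), (-1 : ZMod p)), x)) '' Set.univ := by
      ext ⟨⟨b, c⟩, x⟩
      simp only [Set.mem_ofPred_eq, Set.mem_image, Prod.mk.injEq, Set.mem_univ, true_and, h3,
        zero_mul, Pt]
      constructor
      · rintro ⟨h | h, h'⟩
        · refine ⟨x, ⟨h.symm, ?_⟩, rfl⟩
          rw [h] at h'
          linear_combination h'
        · exfalso
          rw [h.1, h.2, zero_add] at h'
          exact zero_ne_one h'
      · rintro ⟨x', ⟨rfl, rfl⟩, rfl⟩
        exact ⟨Or.inl rfl, by ring⟩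
    rw [h, Set.ncard_image_of_injective, NPT_univ, hp]
    intro a b hab
    exact (Prod.mk.inj hab).2
  · intro hp
    have h2 := NPT_two_ne p hp
    have h1 : (1 : ZMod p) ≠ -1 := by
      intro h
      apply h2
      linear_combination h
    refine ⟨?_, ?_, ?_⟩
    · have h := NPT_compl p {1, -1}
      rw [Set.ncard_pair h1] at h
      have h8 : {x : ZMod p | x ≠ 1 ∧ x ≠ -1} = {1, -1}ᶜ := by
        ext x; simp
      rw [NPT_cnt, h8]
      exact h
    · have h := NPT_compl p {0, 1, -1}
      have h5 : ({0, 1, -1} : Set (ZMod p)).ncard = 3 := by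
        rw [Set.ncard_insert_of_notMem, Set.ncard_pair h1]
        rintro (h | h)
        · exact zero_ne_one h
        · exact h1 (by
            have h6 : (1 : ZMod p) = 0 := by
              have h7 : (0 : ZMod p) = -1 := h
              linear_combination h7
            exact absurd h6 one_ne_zero)
      rw [h5] at h
      have h8 : {x : ZMod p | x ≠ 0 ∧ x ≠ 1 ∧ x ≠ -1} = {0, 1, -1}ᶜ := by
        ext x; simp
      rw [NPT_cnt, h8]
      exact h
    · have h4 : (4 : ZMod p) ≠ 0 := by
        have : (4 : ZMod p) = 2 * 2 := by ring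
        rw [this]
        exact mul_ne_zero h2 h2
      have h := NPT_compl p {0, 4⁻¹}
      rw [Set.ncard_pair (inv_ne_zero h4).symm] at h
      have h8 : {x : ZMod p | x ≠ 0 ∧ 4 * x ≠ 1} = {0, 4⁻¹}ᶜ := by
        ext x
        simp only [Set.mem_ofPred_eq, Set.mem_compl_iff, Set.mem_insert_iff,
          Set.mem_singleton_iff, not_or]
        refine and_congr_right fun _ => not_congr ?_
        constructor
        · intro h6
          exact eq_inv_of_mul_eq_one_right h6
        · rintro rfl
          exact mul_inv_cancel₀ h4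
      rw [NPT_cnt, h8]
      exact h
  · rw [NPT_cnt]
    have h1 := NPT_one_rep p 2
    split_ifs with hp
    · have h : {a : ZMod p | Sq0 a} = {0, 1} := by
        ext a
        simp only [Set.mem_ofPred_eq, Sq0, Set.mem_insert_iff, Set.mem_singleton_iff]
        constructor
        · rintro (h | h)
          · exact Or.inl h
          · exact Or.inr ((hK p).2 hp a h)
        · rintro (h | h)
          · exact Or.inl h
          · exact Or.inr (h ▸ h1)
      rw [h, Set.ncard_pair zero_ne_one]
    · obtain ⟨s, hs, hs1, -, hall, -⟩ := (hK p).1 hp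
      have h : {a : ZMod p | Sq0 a} = {0, 1, s} := by
        ext a
        simp only [Set.mem_ofPred_eq, Sq0, Set.mem_insert_iff, Set.mem_singleton_iff]
        constructor
        · rintro (h | h)
          · exact Or.inl h
          · exact Or.inr (hall a h)
        · rintro (h | h | h)
          · exact Or.inl h
          · exact Or.inr (h ▸ h1)
          · exact Or.inr (h ▸ hs)
      rw [h, Set.ncard_insert_of_notMem, Set.ncard_pair (Ne.symm hs1)]
      rintro (h | h)
      · exact zero_ne_one h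
      · exact hs.1 (Eq.symm h)

end Pool.NR
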